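import Mathlib

set_option autoImplicit false

/-! # Two colours for graphs with independence number two: the two main lemmas -/

namespace Pool.Agent.Lib.MP_85f9db_co.H21

open Finset

section Det

variable {V : Type} [Fintype V] [DecidableEq V] (G : SimpleGraph V)

/-- The colouring built from stars at the vertices of `T`. -/
def gg (B T : Finset V) (f : V → V → Bool) (p q : V) : Bool :=
  if p ∈ T then f p q else if q ∈ T then f q p else xor (decide (p ∈ B)) (decide (q ∈ B))

omit [Fintype V] in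
lemma gg_comm (B T : Finset V) (f : V → V → Bool) (hf : ∀ w ∈ T, ∀ r ∈ T, f w r = f r w)
    (p q : V) : gg B T f p q = gg B T f q p := by
  unfold gg
  by_cases hp : p ∈ T <;> by_cases hq : q ∈ T
  · simp [hp, hq, hf p hp q hq]
  · simp [hp, hq]
  · simp [hp, hq]
  · simp [hp, hq, Bool.xor_comm]

omit [Fintype V] in
lemma det (A B T : Finset V) (htri : ∀ x, x ∈ A ∨ x ∈ B ∨ x ∈ T)
    (hAB : ∀ x ∈ A, x ∉ B) (hAT : ∀ x ∈ A, x ∉ T) (hBT : ∀ x ∈ B, x ∉ T)
    (hA : ∀ x ∈ A, ∀ y ∈ A, x ≠ y → G.Adj x y) (hB : ∀ x ∈ B, ∀ y ∈ B, x ≠ y → G.Adj x y)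
    (f : V → V → Bool) (hf : ∀ w ∈ T, ∀ r ∈ T, f w r = f r w)
    (C1 : ∀ w ∈ T, ∀ a ∈ A, ¬ G.Adj w a → ∃ r ∈ A, G.Adj w r ∧ f w r = true)
    (C2 : ∀ w ∈ T, ∀ b ∈ B, ¬ G.Adj w b → ∃ r ∈ B, G.Adj w r ∧ f w r = true)
    (C3 : ∀ w ∈ T, ∀ w' ∈ T, w ≠ w' → ¬ G.Adj w w' →
      ∃ r, G.Adj w r ∧ G.Adj w' r ∧ f w r ≠ f w' r)
    (C4 : ∀ a ∈ A, ∀ b ∈ B, ¬ G.Adj a b → (∃ r ∈ A, G.Adj b r) ∨ (∃ r ∈ B, G.Adj a r) ∨
      ∃ w ∈ T, G.Adj a w ∧ G.Adj b w ∧ f w a ≠ f w b) :
    ∃ c : Sym2 V → Bool, ∀ x y, x ≠ y → ¬ G.Adj x y →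
      ∃ w, G.Adj x w ∧ G.Adj y w ∧ c s(x, w) ≠ c s(y, w) := by
  refine ⟨Sym2.lift ⟨gg B T f, gg_comm B T f hf⟩, ?_⟩
  have key : ∀ x y, x ≠ y → ¬ G.Adj x y →
      ((x ∈ A ∧ y ∈ B) ∨ (x ∈ A ∧ y ∈ T) ∨ (x ∈ B ∧ y ∈ T) ∨ (x ∈ T ∧ y ∈ T)) →
      ∃ w, G.Adj x w ∧ G.Adj y w ∧ gg B T f x w ≠ gg B T f y w := by
    intro x y hxy hadj hcase
    rcases hcase with ⟨hx, hy⟩ | ⟨hx, hy⟩ | ⟨hx, hy⟩ | ⟨hx, hy⟩
    · rcases C4 x hx y hy hadj with ⟨r, hr, hyr⟩ | ⟨r, hr, hxr⟩ | ⟨w, hw, h1, h2, h3⟩
      · have hne : x ≠ r := by rintro rfl; exact hadj hyr.symm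
        refine ⟨r, hA x hx r hr hne, hyr, ?_⟩
        simp [gg, hAT x hx, hAT r hr, hBT y hy, hAB x hx, hAB r hr, hy]
      · have hne : y ≠ r := by rintro rfl; exact hadj hxr
        refine ⟨r, hxr, hB y hy r hr hne, ?_⟩
        simp [gg, hAT x hx, hBT r hr, hBT y hy, hAB x hx, hr, hy]
      · refine ⟨w, h1, h2, ?_⟩
        simpa [gg, hAT x hx, hBT y hy, hw] using h3
    · obtain ⟨r, hr, h1, h2⟩ := C1 y hy x hx (fun h => hadj h.symm)
      have hne : x ≠ r := by rintro rfl; exact hadj h1.symm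
      refine ⟨r, hA x hx r hr hne, h1, ?_⟩
      simp [gg, hAT x hx, hAT r hr, hAB x hx, hAB r hr, hy, h2]
    · obtain ⟨r, hr, h1, h2⟩ := C2 y hy x hx (fun h => hadj h.symm)
      have hne : x ≠ r := by rintro rfl; exact hadj h1.symm
      refine ⟨r, hB x hx r hr hne, h1, ?_⟩
      simp [gg, hBT x hx, hBT r hr, hx, hr, hy, h2]
    · obtain ⟨r, h1, h2, h3⟩ := C3 x hx y hy hxy hadj
      exact ⟨r, h1, h2, by simpa [gg, hx, hy] using h3⟩
  intro x y hxy hadj
  have hor : ((x ∈ A ∧ y ∈ B) ∨ (x ∈ A ∧ y ∈ T) ∨ (x ∈ B ∧ y ∈ T) ∨ (x ∈ T ∧ y ∈ T)) ∨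
      ((y ∈ A ∧ x ∈ B) ∨ (y ∈ A ∧ x ∈ T) ∨ (y ∈ B ∧ x ∈ T) ∨ (y ∈ T ∧ x ∈ T)) := by
    rcases htri x with hx | hx | hx <;> rcases htri y with hy | hy | hy
    · exact absurd (hA x hx y hy hxy) hadj
    · tauto
    · tauto
    · tauto
    · exact absurd (hB x hx y hy hxy) hadj
    · tauto
    · tauto
    · tauto
    · tauto
  rcases hor with h | h
  · obtain ⟨w, h1, h2, h3⟩ := key x y hxy hadj h
    exact ⟨w, h1, h2, h3⟩
  · obtain ⟨w, h1, h2, h3⟩ := key y x hxy.symm (fun h => hadj h.symm) h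
    exact ⟨w, h2, h1, fun h => h3 h.symm⟩

end Det

section Rand

variable {V : Type} [Fintype V] [DecidableEq V] (G : SimpleGraph V) [DecidableRel G.Adj]

/-- Star values: forced value, otherwise the random bit of the edge. -/
def fv (fo : V → V → Option Bool) (x : Sym2 V → Bool) (w r : V) : Bool :=
  (fo w r).getD (x s(w, r))

/-- Assignments for which the stars at `w` and `w'` agree on `S`. -/
def badset (fo : V → V → Option Bool) (w w' : V) (S : Finset V) : Finset (Sym2 V → Bool) :=
  {x | ∀ r ∈ S, fv fo x w r = fv fo x w' r}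

lemma badset_card (fo : V → V → Option Bool) (w w' : V) (hw : w ≠ w') (S : Finset V)
    (hS : ∀ r ∈ S, (fo w r = none ∨ fo w' r = none) ∧ r ≠ w ∧ r ≠ w') :
    (badset fo w w' S).card * 2 ^ S.card ≤ Fintype.card (Sym2 V → Bool) := by
  induction S using Finset.induction_on with
  | empty =>
    simp only [card_empty, pow_zero, mul_one]
    exact Finset.card_le_univ _
  | insert r0 S hr0 ih =>
    have ih' := ih (fun r hr => hS r (Finset.mem_insert_of_mem hr))
    obtain ⟨h0, hr0w, hr0w'⟩ := hS r0 (Finset.mem_insert_self _ _)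
    rw [Finset.card_insert_of_notMem hr0, pow_succ]
    -- the free edge at r0
    set e0 : Sym2 V := if fo w r0 = none then s(w, r0) else s(w', r0) with he0
    let fl : (Sym2 V → Bool) → (Sym2 V → Bool) := fun x => Function.update x e0 (!x e0)
    have hfl : ∀ x, fl (fl x) = x := by
      intro x
      funext e
      by_cases h : e = e0
      · subst h; simp [fl]
      · simp [fl, h]
    have hinj : Function.Injective fl := fun x y h => by
      have := congrArg fl h
      rwa [hfl, hfl] at this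
    have hother : ∀ x, ∀ r ∈ S, (fv fo (fl x) w r = fv fo x w r) ∧
        (fv fo (fl x) w' r = fv fo x w' r) := by
      intro x r hr
      have hne : r ≠ r0 := by rintro rfl; exact hr0 hr
      obtain ⟨-, hrw, hrw'⟩ := hS r (Finset.mem_insert_of_mem hr)
      have h1 : s(w, r) ≠ e0 := by
        rw [he0]
        split_ifs
        · intro h
          rw [Sym2.eq_iff] at h
          rcases h with ⟨-, h⟩ | ⟨h, -⟩
          · exact hne h
          · exact hr0w h.symm
        · intro h
          rw [Sym2.eq_iff] at h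
          rcases h with ⟨h, -⟩ | ⟨h, -⟩
          · exact hw h
          · exact hr0w h.symm
      have h2 : s(w', r) ≠ e0 := by
        rw [he0]
        split_ifs
        · intro h
          rw [Sym2.eq_iff] at h
          rcases h with ⟨h, -⟩ | ⟨h, -⟩
          · exact hw h.symm
          · exact hr0w' h.symm
        · intro h
          rw [Sym2.eq_iff] at h
          rcases h with ⟨-, h⟩ | ⟨h, -⟩
          · exact hne h
          · exact hr0w' h.symm
      constructor
      · simp [fv, fl, h1]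
      · simp [fv, fl, h2]
    have hflip : ∀ x, (fv fo (fl x) w r0 = fv fo (fl x) w' r0) ↔
        ¬ (fv fo x w r0 = fv fo x w' r0) := by
      intro x
      have hd : s(w, r0) ≠ s(w', r0) := by
        intro h
        rw [Sym2.eq_iff] at h
        rcases h with ⟨h, -⟩ | ⟨h, -⟩
        · exact hw h
        · exact hr0w h.symm
      by_cases hn : fo w r0 = none
      · have he : e0 = s(w, r0) := by rw [he0, if_pos hn]
        have h1 : fv fo (fl x) w r0 = !(fv fo x w r0) := by
          simp [fv, fl, hn, he]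
        have h2 : fv fo (fl x) w' r0 = fv fo x w' r0 := by
          simp [fv, fl, he, hd.symm]
        rw [h1, h2]
        cases fv fo x w r0 <;> cases fv fo x w' r0 <;> simp
      · have hn' : fo w' r0 = none := by
          rcases h0 with h | h
          · exact absurd h hn
          · exact h
        have he : e0 = s(w', r0) := by rw [he0, if_neg hn]
        have h1 : fv fo (fl x) w' r0 = !(fv fo x w' r0) := by
          simp [fv, fl, hn', he]
        have h2 : fv fo (fl x) w r0 = fv fo x w r0 := by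
          simp [fv, fl, he, hd]
        rw [h1, h2]
        cases fv fo x w r0 <;> cases fv fo x w' r0 <;> simp
    have hsub : (badset fo w w' (insert r0 S)) ∪ (badset fo w w' (insert r0 S)).image fl ⊆
        badset fo w w' S := by
      intro x hx
      rw [Finset.mem_union, Finset.mem_image] at hx
      rcases hx with hx | ⟨y, hy, rfl⟩
      · simp only [badset, Finset.mem_filter, Finset.mem_univ, true_and] at hx ⊢
        exact fun r hr => hx r (Finset.mem_insert_of_mem hr)
      · simp only [badset, Finset.mem_filter, Finset.mem_univ, true_and] at hy ⊢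
        intro r hr
        rw [(hother y r hr).1, (hother y r hr).2]
        exact hy r (Finset.mem_insert_of_mem hr)
    have hdisj : Disjoint (badset fo w w' (insert r0 S))
        ((badset fo w w' (insert r0 S)).image fl) := by
      rw [Finset.disjoint_left]
      intro x hx hx'
      rw [Finset.mem_image] at hx'
      obtain ⟨y, hy, rfl⟩ := hx'
      simp only [badset, Finset.mem_filter, Finset.mem_univ, true_and] at hx hy
      exact (hflip y).1 (hx r0 (Finset.mem_insert_self _ _)) (hy r0 (Finset.mem_insert_self _ _))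
    have hcard := Finset.card_le_card hsub
    rw [Finset.card_union_of_disjoint hdisj, Finset.card_image_of_injective _ hinj] at hcard
    calc (badset fo w w' (insert r0 S)).card * (2 ^ S.card * 2)
        = ((badset fo w w' (insert r0 S)).card + (badset fo w w' (insert r0 S)).card) *
          2 ^ S.card := by ring
      _ ≤ (badset fo w w' S).card * 2 ^ S.card := Nat.mul_le_mul_right _ hcard
      _ ≤ _ := ih'

lemma num (t : ℕ) : t * (t - 1) < 2 ^ t := by
  rcases Nat.lt_or_ge t 4 with h | h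
  · interval_cases t <;> norm_num
  · induction t, h using Nat.le_induction with
    | base => norm_num
    | succ t ht ih =>
      have h1 : t + 1 - 1 = t := by omega
      rw [h1, pow_succ]
      obtain ⟨s, rfl⟩ : ∃ s, t = s + 1 := ⟨t - 1, by omega⟩
      have h2 : s + 1 - 1 = s := by omega
      rw [h2] at ih
      nlinarith

lemma rand (T : Finset V) (fo : V → V → Option Bool)
    (hT : ∀ w ∈ T, ∀ w' ∈ T, w ≠ w' → ¬ G.Adj w w' →
      (∃ r, G.Adj w r ∧ G.Adj w' r ∧ ∃ b b', fo w r = some b ∧ fo w' r = some b' ∧ b ≠ b') ∨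
      T.card ≤ (Finset.univ.filter (fun r => (G.Adj w r ∧ G.Adj w' r) ∧
        (fo w r = none ∨ fo w' r = none))).card + 1) :
    ∃ x : Sym2 V → Bool, ∀ w ∈ T, ∀ w' ∈ T, w ≠ w' → ¬ G.Adj w w' →
      ∃ r, G.Adj w r ∧ G.Adj w' r ∧ fv fo x w r ≠ fv fo x w' r := by
  classical
  by_contra hcon
  push Not at hcon
  -- linear order on V
  let e := Fintype.equivFin V
  let P : Finset (V × V) := (T ×ˢ T).filter (fun p => e p.1 < e p.2 ∧ ¬ G.Adj p.1 p.2 ∧
    ¬ (∃ r, G.Adj p.1 r ∧ G.Adj p.2 r ∧ ∃ b b', fo p.1 r = some b ∧ fo p.2 r = some b' ∧ b ≠ b'))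
  let F : V × V → Finset V := fun p => Finset.univ.filter (fun r => (G.Adj p.1 r ∧ G.Adj p.2 r) ∧
        (fo p.1 r = none ∨ fo p.2 r = none))
  have hcover : (Finset.univ : Finset (Sym2 V → Bool)) ⊆
      P.biUnion (fun p => badset fo p.1 p.2 (F p)) := by
    intro x _
    obtain ⟨w, hw, w', hw', hne, hadj, hbad⟩ := hcon x
    rw [Finset.mem_biUnion]
    have hforce : ¬ (∃ r, G.Adj w r ∧ G.Adj w' r ∧ ∃ b b', fo w r = some b ∧ fo w' r = some b' ∧
        b ≠ b') := by
      rintro ⟨r, h1, h2, b, b', h3, h4, h5⟩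
      have := hbad r h1 h2
      simp only [fv, h3, h4, Option.getD_some] at this
      exact h5 this
    have hforce' : ¬ (∃ r, G.Adj w' r ∧ G.Adj w r ∧ ∃ b b', fo w' r = some b ∧ fo w r = some b' ∧
        b ≠ b') := by
      rintro ⟨r, h1, h2, b, b', h3, h4, h5⟩
      exact hforce ⟨r, h2, h1, b', b, h4, h3, h5.symm⟩
    rcases lt_trichotomy (e w) (e w') with h | h | h
    · refine ⟨(w, w'), ?_, ?_⟩
      · simp only [P, Finset.mem_filter, Finset.mem_product]
        exact ⟨⟨hw, hw'⟩, h, hadj, hforce⟩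
      · simp only [badset, F, Finset.mem_filter, Finset.mem_univ, true_and]
        exact fun r hr => hbad r hr.1.1 hr.1.2
    · exact absurd (e.injective h) hne
    · refine ⟨(w', w), ?_, ?_⟩
      · simp only [P, Finset.mem_filter, Finset.mem_product]
        exact ⟨⟨hw', hw⟩, h, fun h => hadj h.symm, hforce'⟩
      · simp only [badset, F, Finset.mem_filter, Finset.mem_univ, true_and]
        exact fun r hr => (hbad r hr.1.2 hr.1.1).symm
  have hPcard : P.card * 2 ≤ T.card * (T.card - 1) := by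
    let Q : Finset (V × V) := (T ×ˢ T).filter (fun p => e p.1 < e p.2)
    have hPQ : P ⊆ Q := by
      intro p hp
      simp only [P, Q, Finset.mem_filter] at hp ⊢
      exact ⟨hp.1, hp.2.1⟩
    have hQ : Q ∪ Q.image Prod.swap ⊆ T.offDiag := by
      intro p hp
      rw [Finset.mem_union, Finset.mem_image] at hp
      rw [Finset.mem_offDiag]
      rcases hp with hp | ⟨q, hq, rfl⟩
      · simp only [Q, Finset.mem_filter, Finset.mem_product] at hp
        exact ⟨hp.1.1, hp.1.2, fun h => absurd (congrArg e h) hp.2.ne⟩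
      · simp only [Q, Finset.mem_filter, Finset.mem_product] at hq
        exact ⟨hq.1.2, hq.1.1, fun h => absurd (congrArg e h) hq.2.ne'⟩
    have hd : Disjoint Q (Q.image Prod.swap) := by
      rw [Finset.disjoint_left]
      intro p hp hp'
      rw [Finset.mem_image] at hp'
      obtain ⟨q, hq, rfl⟩ := hp'
      simp only [Q, Finset.mem_filter] at hp hq
      exact absurd hp.2 (not_lt.2 hq.2.le)
    have h1 := Finset.card_le_card hQ
    rw [Finset.card_union_of_disjoint hd, Finset.card_image_of_injective _ Prod.swap_injective,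
      Finset.offDiag_card] at h1
    have h2 := Finset.card_le_card hPQ
    have h3 : T.card * T.card - T.card = T.card * (T.card - 1) := by
      rw [Nat.mul_sub, mul_one]
    omega
  have hbadc : ∀ p ∈ P, (badset fo p.1 p.2 (F p)).card * 2 ^ T.card ≤
      Fintype.card (Sym2 V → Bool) * 2 := by
    intro p hp
    simp only [P, Finset.mem_filter, Finset.mem_product] at hp
    obtain ⟨⟨h1, h2⟩, h3, h4, h5⟩ := hp
    have hne : p.1 ≠ p.2 := fun h => absurd (congrArg e h) h3.ne
    have h6 : T.card ≤ (F p).card + 1 := by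
      rcases hT p.1 h1 p.2 h2 hne h4 with h | h
      · exact absurd h h5
      · exact h
    have h7 := badset_card fo p.1 p.2 hne (F p) (by
      intro r hr
      simp only [F, Finset.mem_filter, Finset.mem_univ, true_and] at hr
      exact ⟨hr.2, hr.1.1.ne', hr.1.2.ne'⟩)
    calc (badset fo p.1 p.2 (F p)).card * 2 ^ T.card
        ≤ (badset fo p.1 p.2 (F p)).card * 2 ^ ((F p).card + 1) :=
          Nat.mul_le_mul_left _ (Nat.pow_le_pow_right (by norm_num) h6)
      _ = (badset fo p.1 p.2 (F p)).card * 2 ^ (F p).card * 2 := by rw [pow_succ]; ring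
      _ ≤ _ := Nat.mul_le_mul_right _ h7
  have hN : 0 < Fintype.card (Sym2 V → Bool) := Fintype.card_pos
  have h1 : Fintype.card (Sym2 V → Bool) ≤ ∑ p ∈ P, (badset fo p.1 p.2 (F p)).card := by
    calc Fintype.card (Sym2 V → Bool) = (Finset.univ : Finset (Sym2 V → Bool)).card :=
          Finset.card_univ.symm
      _ ≤ (P.biUnion (fun p => badset fo p.1 p.2 (F p))).card := Finset.card_le_card hcover
      _ ≤ _ := Finset.card_biUnion_le
  have h2 : Fintype.card (Sym2 V → Bool) * 2 ^ T.card ≤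
      P.card * (Fintype.card (Sym2 V → Bool) * 2) := by
    calc Fintype.card (Sym2 V → Bool) * 2 ^ T.card
        ≤ (∑ p ∈ P, (badset fo p.1 p.2 (F p)).card) * 2 ^ T.card := Nat.mul_le_mul_right _ h1
      _ = ∑ p ∈ P, (badset fo p.1 p.2 (F p)).card * 2 ^ T.card := Finset.sum_mul _ _ _
      _ ≤ ∑ _p ∈ P, Fintype.card (Sym2 V → Bool) * 2 := Finset.sum_le_sum hbadc
      _ = _ := by rw [Finset.sum_const, smul_eq_mul]
  have h3 := num T.card
  have h4 : P.card * (Fintype.card (Sym2 V → Bool) * 2) ≤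
      Fintype.card (Sym2 V → Bool) * (T.card * (T.card - 1)) := by
    calc P.card * (Fintype.card (Sym2 V → Bool) * 2)
        = Fintype.card (Sym2 V → Bool) * (P.card * 2) := by ring
      _ ≤ _ := Nat.mul_le_mul_left _ hPcard
  have h5 : Fintype.card (Sym2 V → Bool) * (T.card * (T.card - 1)) <
      Fintype.card (Sym2 V → Bool) * 2 ^ T.card := Nat.mul_lt_mul_of_pos_left h3 hN
  omega

end Rand

end Pool.Agent.Lib.MP_85f9db_co.H21
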