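import Mathlib
import Pool.Agent.Lib.MP_85f9db_co.H21.Alpha

set_option autoImplicit false

/-! # Two colours for graphs with independence number two: the theorem -/

namespace Pool.Agent.Lib.MP_85f9db_co.H21

open Finset

section Pick

variable {V : Type} [Fintype V] [DecidableEq V]

/-- Predecessors: an assignment of earlier elements to nonempty subsets, different for disjoint
subsets, never equal to `z`. -/
lemma pick (A : Finset V) (u z : V) (hu : u ∈ A) (hz : z ≠ u) (N : V → Finset V)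
    (hN : ∀ w, N w ⊆ A) :
    ∃ al : V → V, (∀ w, (N w).Nonempty → u ∉ N w → al w ∈ A ∧ al w ∉ N w ∧ al w ≠ z) ∧
      (∀ w w', (N w).Nonempty → u ∉ N w → (N w').Nonempty → u ∉ N w' →
        Disjoint (N w) (N w') → al w ≠ al w') := by
  classical
  let e := Fintype.equivFin V
  let rk : V → ℕ := fun x => if x = u then 0 else if x = z then Fintype.card V + 1 else
    (e x : ℕ) + 1
  have hinj : Function.Injective rk := by
    intro x y hxy
    have hx := (e x).isLt
    have hy := (e y).isLt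
    simp only [rk] at hxy
    by_cases h1 : x = u
    · by_cases h2 : y = u
      · rw [h1, h2]
      · rw [if_pos h1, if_neg h2] at hxy
        split_ifs at hxy
    · by_cases h2 : y = u
      · rw [if_pos h2, if_neg h1] at hxy
        split_ifs at hxy
      · rw [if_neg h1, if_neg h2] at hxy
        by_cases h3 : x = z
        · by_cases h4 : y = z
          · rw [h3, h4]
          · rw [if_pos h3, if_neg h4] at hxy; omega
        · by_cases h4 : y = z
          · rw [if_pos h4, if_neg h3] at hxy; omega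
          · rw [if_neg h3, if_neg h4] at hxy
            exact e.injective (Fin.ext (by omega))
  have hrku : rk u = 0 := by simp [rk]
  have hpos : ∀ x, x ≠ u → 0 < rk x := by
    intro x hx
    rcases Nat.eq_zero_or_pos (rk x) with h | h
    · exact absurd (hinj (h.trans hrku.symm)) hx
    · exact h
  have hzmax : ∀ x, rk x ≤ rk z := by
    intro x
    have hx := (e x).isLt
    have h0 : rk z = Fintype.card V + 1 := by simp [rk, hz]
    rw [h0]
    simp only [rk]
    split_ifs <;> omega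
  have : Nonempty V := ⟨u⟩
  have h : ∀ w, (N w).Nonempty → u ∉ N w → ∃ a m, m ∈ N w ∧ (∀ x ∈ N w, rk m ≤ rk x) ∧
      a ∈ A ∧ rk a < rk m ∧ (∀ x ∈ A, rk x < rk m → rk x ≤ rk a) := by
    intro w hw huw
    obtain ⟨m, hm, hm'⟩ := Finset.exists_min_image (N w) rk hw
    have hmu : m ≠ u := by rintro rfl; exact huw hm
    have hne : (A.filter (fun x => rk x < rk m)).Nonempty :=
      ⟨u, Finset.mem_filter.2 ⟨hu, by rw [hrku]; exact hpos m hmu⟩⟩
    obtain ⟨a, ha, ha'⟩ := Finset.exists_max_image _ rk hne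
    rw [Finset.mem_filter] at ha
    exact ⟨a, m, hm, hm', ha.1, ha.2, fun x hx hxm => ha' x (Finset.mem_filter.2 ⟨hx, hxm⟩)⟩
  choose! al mu h1 h2 h3 h4 h5 using h
  refine ⟨al, ?_, ?_⟩
  · intro w hw huw
    refine ⟨h3 w hw huw, ?_, ?_⟩
    · intro hmem
      exact absurd (h2 w hw huw _ hmem) (not_le.2 (h4 w hw huw))
    · intro heq
      have := h4 w hw huw
      rw [heq] at this
      exact absurd (hzmax (mu w)) (not_le.2 this)
  · intro w w' hw huw hw' huw' hdis heq
    have hmm : rk (mu w) ≠ rk (mu w') := by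
      intro h
      have := hinj h
      exact Finset.disjoint_left.1 hdis (h1 w hw huw) (this ▸ h1 w' hw' huw')
    have ha := h4 w hw huw
    have ha' := h4 w' hw' huw'
    rw [← heq] at ha'
    rcases lt_or_gt_of_ne hmm with hlt | hlt
    · have := h5 w' hw' huw' (mu w) (hN w (h1 w hw huw)) hlt
      rw [← heq] at this
      omega
    · have := h5 w hw huw (mu w') (hN w' (h1 w' hw' huw')) hlt
      omega

end Pick

section Main

variable {V : Type} [Fintype V] [DecidableEq V] (G : SimpleGraph V) [DecidableRel G.Adj]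

/-- The common data of the two cases. -/
structure Setup (A B T : Finset V) (u v : V) : Prop where
  tri : ∀ x, x ∈ A ∨ x ∈ B ∨ x ∈ T
  ab : ∀ x ∈ A, x ∉ B
  atn : ∀ x ∈ A, x ∉ T
  bt : ∀ x ∈ B, x ∉ T
  cA : ∀ x ∈ A, ∀ y ∈ A, x ≠ y → G.Adj x y
  cB : ∀ x ∈ B, ∀ y ∈ B, x ≠ y → G.Adj x y
  uA : u ∈ A
  vB : v ∈ B
  uB : ∀ b ∈ B, ¬ G.Adj u b
  vA : ∀ a ∈ A, ¬ G.Adj v a
  mn : ∀ x y, x ≠ y → ¬ G.Adj x y →
    T.card ≤ (Finset.univ.filter (fun r => G.Adj x r ∧ G.Adj y r)).card
  alpha : ∀ x y z, x ≠ y → x ≠ z → y ≠ z → G.Adj x y ∨ G.Adj x z ∨ G.Adj y z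

/-- Vertices of `A` without a neighbour in `B`. -/
def As (A B : Finset V) : Finset V := A.filter (fun a => ∀ b ∈ B, ¬ G.Adj a b)

variable {G}

lemma mem_As {A B : Finset V} {a : V} : a ∈ As G A B ↔ a ∈ A ∧ ∀ b ∈ B, ¬ G.Adj a b := by
  simp [As]

lemma Setup.symm {A B T : Finset V} {u v : V} (S : Setup G A B T u v) :
    Setup G B A T v u where
  tri := fun x => by rcases S.tri x with h | h | h <;> tauto
  ab := fun x hx hx' => S.ab x hx' hx
  atn := S.bt
  bt := S.atn
  cA := S.cB
  cB := S.cA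
  uA := S.vB
  vB := S.uA
  uB := S.vA
  vA := S.uB
  mn := S.mn
  alpha := S.alpha

lemma Setup.u_mem {A B T : Finset V} {u v : V} (S : Setup G A B T u v) : u ∈ As G A B :=
  mem_As.2 ⟨S.uA, S.uB⟩

lemma Setup.star {A B T : Finset V} {u v : V} (S : Setup G A B T u v) :
    ∀ a ∈ As G A B, ∀ b ∈ As G B A, ∀ w ∈ T, G.Adj a w ∧ G.Adj b w := by
  intro a ha b hb w hw
  rw [mem_As] at ha hb
  have hne : a ≠ b := by rintro rfl; exact S.ab a ha.1 hb.1
  have hsub : (Finset.univ.filter (fun r => G.Adj a r ∧ G.Adj b r)) ⊆ T := by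
    intro r hr
    simp only [Finset.mem_filter, Finset.mem_univ, true_and] at hr
    rcases S.tri r with h | h | h
    · exact absurd hr.2 (hb.2 r h)
    · exact absurd hr.1 (ha.2 r h)
    · exact h
  have heq := Finset.eq_of_subset_of_card_le hsub (S.mn a b hne (ha.2 b hb.1))
  rw [← heq] at hw
  simpa using hw

lemma Setup.starA {A B T : Finset V} {u v : V} (S : Setup G A B T u v) :
    ∀ a ∈ As G A B, ∀ w ∈ T, G.Adj w a := fun a ha w hw =>
  (S.star a ha v S.symm.u_mem w hw).1.symm

/-- Case 1: every vertex of `T` misses all of `A` outside `A*` and all of `B` outside `B*`. -/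
lemma case1 {A B T : Finset V} {u v : V} (S : Setup G A B T u v) (hT : 2 ≤ T.card)
    (hA1 : ∀ w ∈ T, ∀ a ∈ A, a ∉ As G A B → ¬ G.Adj w a)
    (hB1 : ∀ w ∈ T, ∀ b ∈ B, b ∉ As G B A → ¬ G.Adj w b)
    (hne : ∃ a ∈ A, a ∉ As G A B) :
    ∃ c : Sym2 V → Bool, ∀ x y, x ≠ y → ¬ G.Adj x y →
      ∃ w, G.Adj x w ∧ G.Adj y w ∧ c s(x, w) ≠ c s(y, w) := by
  classical
  obtain ⟨a0, ha0, ha0'⟩ := hne
  obtain ⟨w1, hw1, w2, hw2, hw12⟩ := Finset.one_lt_card.1 (by omega : 1 < T.card)
  have hsub : (Finset.univ.filter (fun r => G.Adj w1 r ∧ G.Adj a0 r)) ⊆ As G A B := by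
    intro r hr
    simp only [Finset.mem_filter, Finset.mem_univ, true_and] at hr
    rcases S.tri r with h | h | h
    · by_contra hc
      exact hA1 w1 hw1 r h hc hr.1
    · exfalso
      have hrs : r ∈ As G B A := by
        by_contra hc
        exact hB1 w1 hw1 r h hc hr.1
      exact (mem_As.1 hrs).2 a0 ha0 hr.2.symm
    · exact absurd hr.2.symm (hA1 r h a0 ha0 ha0')
  have hcard : 2 ≤ (As G A B).card :=
    hT.trans ((S.mn w1 a0 (fun h => S.atn a0 ha0 (h ▸ hw1)) (hA1 w1 hw1 a0 ha0 ha0')).trans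
      (Finset.card_le_card hsub))
  obtain ⟨a1, ha1, a2, ha2, ha12⟩ := Finset.one_lt_card.1 (by omega : 1 < (As G A B).card)
  have hA1' := (mem_As.1 ha1).1
  have hA2' := (mem_As.1 ha2).1
  let f : V → V → Bool := fun w r =>
    !(decide (w = w1 ∧ r = a1) || decide (w = w2 ∧ r ∈ As G A B ∧ r ≠ a1))
  have hfB : ∀ w, ∀ r, r ∉ A → f w r = true := by
    intro w r hr
    have h1 : r ≠ a1 := by rintro rfl; exact hr hA1'
    have h2 : r ∉ As G A B := fun h => hr (mem_As.1 h).1
    simp [f, h1, h2]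
  refine det G A B T S.tri S.ab S.atn S.bt S.cA S.cB f ?_ ?_ ?_ ?_ ?_
  · intro w hw r hr
    rw [hfB w r (fun h => S.atn r h hr), hfB r w (fun h => S.atn w h hw)]
  · intro w hw a ha hadj
    by_cases h1 : w = w1
    · subst h1
      exact ⟨a2, hA2', S.starA a2 ha2 w hw, by simp [f, hw12, ha12.symm]⟩
    · by_cases h2 : w = w2
      · subst h2
        exact ⟨a1, hA1', S.starA a1 ha1 w hw, by simp [f, hw12.symm]⟩
      · exact ⟨u, S.uA, S.starA u S.u_mem w hw, by simp [f, h1, h2]⟩
  · intro w hw b hb hadj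
    exact ⟨v, S.vB, S.symm.starA v S.symm.u_mem w hw, hfB w v (fun h => S.ab v h S.vB)⟩
  · intro w hw w' hw' hne hadj
    exfalso
    rcases S.alpha w w' a0 hne (fun h => S.atn a0 ha0 (h ▸ hw)) (fun h => S.atn a0 ha0 (h ▸ hw'))
      with h | h | h
    · exact hadj h
    · exact hA1 w hw a0 ha0 ha0' h
    · exact hA1 w' hw' a0 ha0 ha0' h
  · intro a ha b hb hadj
    by_cases h1 : ∃ r ∈ A, G.Adj b r
    · exact Or.inl h1
    by_cases h2 : ∃ r ∈ B, G.Adj a r
    · exact Or.inr (Or.inl h2)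
    push Not at h1 h2
    have haS : a ∈ As G A B := mem_As.2 ⟨ha, h2⟩
    have hbS : b ∈ As G B A := mem_As.2 ⟨hb, h1⟩
    refine Or.inr (Or.inr ?_)
    have hbA : b ∉ A := fun h => S.ab b h hb
    by_cases h3 : a = a1
    · subst h3
      refine ⟨w1, hw1, (S.starA a haS w1 hw1).symm, (S.symm.starA b hbS w1 hw1).symm, ?_⟩
      rw [hfB w1 b hbA]
      simp [f]
    · refine ⟨w2, hw2, (S.starA a haS w2 hw2).symm, (S.symm.starA b hbS w2 hw2).symm, ?_⟩
      rw [hfB w2 b hbA]
      simp [f, haS, h3]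

/-- Case 2: some `w0 ∈ T` sees all of `A`, or sees a vertex `z` of `A` outside `A*`. -/
lemma case2 {A B T : Finset V} {u v : V} (S : Setup G A B T u v)
    (w0 : V) (hw0 : w0 ∈ T) (z : V) (hzu : z ≠ u) (hzT : z ∉ T)
    (hz : ∀ a ∈ A, ¬ G.Adj w0 a → z ∈ A ∧ z ∉ As G A B ∧ G.Adj w0 z) :
    ∃ c : Sym2 V → Bool, ∀ x y, x ≠ y → ¬ G.Adj x y →
      ∃ w, G.Adj x w ∧ G.Adj y w ∧ c s(x, w) ≠ c s(y, w) := by
  classical
  obtain ⟨al, hal, hal'⟩ := pick A u z S.uA hzu (fun w => A.filter (fun a => ¬ G.Adj w a))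
    (fun w => Finset.filter_subset _ _)
  have hvu : u ≠ v := fun h => S.ab u S.uA (h ▸ S.vB)
  obtain ⟨be, hbe, hbe'⟩ := pick B v u S.vB hvu (fun w => B.filter (fun a => ¬ G.Adj w a))
    (fun w => Finset.filter_subset _ _)
  have hal1 : ∀ w ∈ T, (A.filter (fun a => ¬ G.Adj w a)).Nonempty →
      al w ∈ A ∧ G.Adj w (al w) ∧ al w ≠ z := by
    intro w hw hne
    obtain ⟨h1, h2, h3⟩ := hal w hne (by
      simp only [Finset.mem_filter, not_and, not_not]
      exact fun _ => S.starA u S.u_mem w hw)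
    refine ⟨h1, ?_, h3⟩
    simp only [Finset.mem_filter, not_and, not_not] at h2
    exact h2 h1
  have hbe1 : ∀ w ∈ T, (B.filter (fun a => ¬ G.Adj w a)).Nonempty →
      be w ∈ B ∧ G.Adj w (be w) := by
    intro w hw hne
    obtain ⟨h1, h2, -⟩ := hbe w hne (by
      simp only [Finset.mem_filter, not_and, not_not]
      exact fun _ => S.symm.starA v S.symm.u_mem w hw)
    refine ⟨h1, ?_⟩
    simp only [Finset.mem_filter, not_and, not_not] at h2
    exact h2 h1
  have hdis : ∀ C : Finset V, (∀ x ∈ C, x ∉ T) → ∀ w ∈ T, ∀ w' ∈ T, w ≠ w' → ¬ G.Adj w w' →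
      Disjoint (C.filter (fun a => ¬ G.Adj w a)) (C.filter (fun a => ¬ G.Adj w' a)) := by
    intro C hC w hw w' hw' hne hadj
    rw [Finset.disjoint_left]
    intro a ha ha'
    rw [Finset.mem_filter] at ha ha'
    rcases S.alpha w w' a hne (fun h => hC a ha.1 (h ▸ hw)) (fun h => hC a ha.1 (h ▸ hw')) with
      h | h | h
    · exact hadj h
    · exact ha.2 h
    · exact ha'.2 h
  have hal2 : ∀ w ∈ T, ∀ w' ∈ T, w ≠ w' → ¬ G.Adj w w' →
      (A.filter (fun a => ¬ G.Adj w a)).Nonempty → (A.filter (fun a => ¬ G.Adj w' a)).Nonempty →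
      al w ≠ al w' := by
    intro w hw w' hw' hne hadj h1 h2
    refine hal' w w' h1 ?_ h2 ?_ (hdis A S.atn w hw w' hw' hne hadj)
    · simp only [Finset.mem_filter, not_and, not_not]
      exact fun _ => S.starA u S.u_mem w hw
    · simp only [Finset.mem_filter, not_and, not_not]
      exact fun _ => S.starA u S.u_mem w' hw'
  have hbe2 : ∀ w ∈ T, ∀ w' ∈ T, w ≠ w' → ¬ G.Adj w w' →
      (B.filter (fun a => ¬ G.Adj w a)).Nonempty → (B.filter (fun a => ¬ G.Adj w' a)).Nonempty →
      be w ≠ be w' := by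
    intro w hw w' hw' hne hadj h1 h2
    refine hbe' w w' h1 ?_ h2 ?_ (hdis B S.bt w hw w' hw' hne hadj)
    · simp only [Finset.mem_filter, not_and, not_not]
      exact fun _ => S.symm.starA v S.symm.u_mem w hw
    · simp only [Finset.mem_filter, not_and, not_not]
      exact fun _ => S.symm.starA v S.symm.u_mem w' hw'
  -- the forced values
  let fo : V → V → Option Bool := fun w r =>
    if w = w0 then
      (if r ∈ As G A B then some false else if r ∈ As G B A then some true
        else if r = z then some true else none)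
    else if (A.filter (fun a => ¬ G.Adj w a)).Nonempty ∧ r = al w then some true
    else if (B.filter (fun a => ¬ G.Adj w a)).Nonempty ∧ r = be w then some true
    else none
  have hfo0 : ∀ r, fo w0 r = (if r ∈ As G A B then some false else if r ∈ As G B A then some true
        else if r = z then some true else none) := fun r => by simp [fo]
  have hfo1 : ∀ w, w ≠ w0 → ∀ r, fo w r =
      (if (A.filter (fun a => ¬ G.Adj w a)).Nonempty ∧ r = al w then some true
      else if (B.filter (fun a => ¬ G.Adj w a)).Nonempty ∧ r = be w then some true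
      else none) := fun w hw r => by simp only [fo, if_neg hw]
  -- values forced at `w ≠ w0`
  have hfs : ∀ w, w ≠ w0 → ∀ r, fo w r ≠ none →
      ((A.filter (fun a => ¬ G.Adj w a)).Nonempty ∧ r = al w) ∨
      ((B.filter (fun a => ¬ G.Adj w a)).Nonempty ∧ r = be w) := by
    intro w hw r h
    rw [hfo1 w hw r] at h
    split_ifs at h with h1 h2
    · exact Or.inl h1
    · exact Or.inr h2
    · exact absurd rfl h
  have hnT : ∀ w ∈ T, ∀ r ∈ T, fo w r = none := by
    intro w hw r hr
    have hrA : r ∉ A := fun h => S.atn r h hr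
    have hrB : r ∉ B := fun h => S.bt r h hr
    by_cases h : w = w0
    · subst h
      have h1 : r ∉ As G A B := fun h => hrA (mem_As.1 h).1
      have h2 : r ∉ As G B A := fun h => hrB (mem_As.1 h).1
      have h3 : r ≠ z := by rintro rfl; exact hzT hr
      rw [hfo0, if_neg h1, if_neg h2, if_neg h3]
    · by_contra hc
      rcases hfs w h r hc with ⟨h1, h2⟩ | ⟨h1, h2⟩
      · exact hrA (h2 ▸ (hal1 w hw h1).1)
      · exact hrB (h2 ▸ (hbe1 w hw h1).1)
  -- pairs with `w0`
  have hpair0 : ∀ w' ∈ T, w' ≠ w0 → ¬ G.Adj w0 w' →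
      (∃ r, G.Adj w0 r ∧ G.Adj w' r ∧ ∃ b b', fo w0 r = some b ∧ fo w' r = some b' ∧ b ≠ b') ∨
      T.card ≤ (Finset.univ.filter (fun r => (G.Adj w0 r ∧ G.Adj w' r) ∧
        (fo w0 r = none ∨ fo w' r = none))).card + 1 := by
    intro w' hw' hne hadj
    by_cases hS : (A.filter (fun a => ¬ G.Adj w' a)).Nonempty ∧ al w' ∈ As G A B
    · left
      refine ⟨al w', S.starA _ hS.2 w0 hw0, (hal1 w' hw' hS.1).2.1, false, true, ?_, ?_, by simp⟩
      · rw [hfo0, if_pos hS.2]
      · rw [hfo1 w' hne, if_pos ⟨hS.1, rfl⟩]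
    · right
      have hsub : (Finset.univ.filter (fun r => G.Adj w0 r ∧ G.Adj w' r)) ⊆
          insert (be w') (Finset.univ.filter (fun r => (G.Adj w0 r ∧ G.Adj w' r) ∧
            (fo w0 r = none ∨ fo w' r = none))) := by
        intro r hr
        simp only [Finset.mem_filter, Finset.mem_univ, true_and] at hr
        rw [Finset.mem_insert]
        by_cases hrb : r = be w'
        · exact Or.inl hrb
        · right
          simp only [Finset.mem_filter, Finset.mem_univ, true_and]
          refine ⟨hr, ?_⟩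
          by_contra hc
          push Not at hc
          rcases hfs w' hne r hc.2 with ⟨h1, h2⟩ | ⟨h1, h2⟩
          · apply hc.1
            have h3 : r ∉ As G A B := fun h => hS ⟨h1, h2 ▸ h⟩
            have h4 : r ∉ As G B A := fun h =>
              S.ab r (h2 ▸ (hal1 w' hw' h1).1) (mem_As.1 h).1
            have h5 : r ≠ z := h2 ▸ (hal1 w' hw' h1).2.2
            rw [hfo0, if_neg h3, if_neg h4, if_neg h5]
          · exact hrb h2
      calc T.card ≤ _ := S.mn w0 w' hne.symm hadj
        _ ≤ _ := Finset.card_le_card hsub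
        _ ≤ _ := Finset.card_insert_le _ _
  obtain ⟨x, hx⟩ := rand G T fo (by
    intro w hw w' hw' hne hadj
    by_cases h0 : w = w0
    · subst h0
      exact hpair0 w' hw' hne.symm hadj
    by_cases h0' : w' = w0
    · subst h0'
      rcases hpair0 w hw hne (fun h => hadj h.symm) with ⟨r, h1, h2, b, b', h3, h4, h5⟩ | h
      · exact Or.inl ⟨r, h2, h1, b', b, h4, h3, h5.symm⟩
      · right
        have heq : (Finset.univ.filter (fun r => (G.Adj w r ∧ G.Adj w' r) ∧
            (fo w r = none ∨ fo w' r = none))) =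
            (Finset.univ.filter (fun r => (G.Adj w' r ∧ G.Adj w r) ∧
            (fo w' r = none ∨ fo w r = none))) := by
          ext r
          simp only [Finset.mem_filter, Finset.mem_univ, true_and]
          tauto
        rw [heq]
        exact h
    · right
      have heq : (Finset.univ.filter (fun r => (G.Adj w r ∧ G.Adj w' r) ∧
            (fo w r = none ∨ fo w' r = none))) =
            (Finset.univ.filter (fun r => G.Adj w r ∧ G.Adj w' r)) := by
        ext r
        simp only [Finset.mem_filter, Finset.mem_univ, true_and, and_iff_left_iff_imp]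
        intro hr
        by_contra hc
        push Not at hc
        rcases hfs w h0 r hc.1 with ⟨h1, h2⟩ | ⟨h1, h2⟩ <;>
          rcases hfs w' h0' r hc.2 with ⟨h3, h4⟩ | ⟨h3, h4⟩
        · exact hal2 w hw w' hw' hne hadj h1 h3 (h2.symm.trans h4)
        · exact S.ab r (h2 ▸ (hal1 w hw h1).1) (h4 ▸ (hbe1 w' hw' h3).1)
        · exact S.ab r (h4 ▸ (hal1 w' hw' h3).1) (h2 ▸ (hbe1 w hw h1).1)
        · exact hbe2 w hw w' hw' hne hadj h1 h3 (h2.symm.trans h4)
      rw [heq]
      exact (S.mn w w' hne hadj).trans (Nat.le_succ _))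
  refine det G A B T S.tri S.ab S.atn S.bt S.cA S.cB (fv fo x) ?_ ?_ ?_ hx ?_
  · intro w hw r hr
    simp only [fv, hnT w hw r hr, hnT r hr w hw, Option.getD_none, Sym2.eq_swap]
  · intro w hw a ha hadj
    by_cases h0 : w = w0
    · subst h0
      obtain ⟨h1, h2, h3⟩ := hz a ha hadj
      refine ⟨z, h1, h3, ?_⟩
      have h4 : z ∉ As G B A := fun h => S.ab z h1 (mem_As.1 h).1
      simp only [fv, hfo0, if_neg h2, if_neg h4, if_true, Option.getD_some]
    · have hne : (A.filter (fun a => ¬ G.Adj w a)).Nonempty := ⟨a, Finset.mem_filter.2 ⟨ha, hadj⟩⟩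
      obtain ⟨h1, h2, h3⟩ := hal1 w hw hne
      refine ⟨al w, h1, h2, ?_⟩
      have : fo w (al w) = some true := by rw [hfo1 w h0, if_pos ⟨hne, rfl⟩]
      simp only [fv, this, Option.getD_some]
  · intro w hw b hb hadj
    by_cases h0 : w = w0
    · subst h0
      refine ⟨v, S.vB, S.symm.starA v S.symm.u_mem w hw, ?_⟩
      have h4 : v ∉ As G A B := fun h => S.ab v (mem_As.1 h).1 S.vB
      have : fo w v = some true := by rw [hfo0, if_neg h4, if_pos S.symm.u_mem]
      simp only [fv, this, Option.getD_some]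
    · have hne : (B.filter (fun a => ¬ G.Adj w a)).Nonempty := ⟨b, Finset.mem_filter.2 ⟨hb, hadj⟩⟩
      obtain ⟨h1, h2⟩ := hbe1 w hw hne
      refine ⟨be w, h1, h2, ?_⟩
      have : fo w (be w) = some true := by
        rw [hfo1 w h0]
        split_ifs with h5 h6
        · rfl
        · rfl
        · exact absurd ⟨hne, rfl⟩ h6
      simp only [fv, this, Option.getD_some]
  · intro a ha b hb hadj
    by_cases h1 : ∃ r ∈ A, G.Adj b r
    · exact Or.inl h1
    by_cases h2 : ∃ r ∈ B, G.Adj a r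
    · exact Or.inr (Or.inl h2)
    push Not at h1 h2
    have haS : a ∈ As G A B := mem_As.2 ⟨ha, h2⟩
    have hbS : b ∈ As G B A := mem_As.2 ⟨hb, h1⟩
    refine Or.inr (Or.inr ⟨w0, hw0, (S.starA a haS w0 hw0).symm,
      (S.symm.starA b hbS w0 hw0).symm, ?_⟩)
    have h4 : b ∉ As G A B := fun h => S.ab b (mem_As.1 h).1 hb
    have e1 : fo w0 a = some false := by rw [hfo0, if_pos haS]
    have e2 : fo w0 b = some true := by rw [hfo0, if_neg h4, if_pos hbS]
    simp [fv, e1, e2]

/-- The two cases together. -/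
lemma main_setup {A B T : Finset V} {u v : V} (S : Setup G A B T u v) (hT : 2 ≤ T.card) :
    ∃ c : Sym2 V → Bool, ∀ x y, x ≠ y → ¬ G.Adj x y →
      ∃ w, G.Adj x w ∧ G.Adj y w ∧ c s(x, w) ≠ c s(y, w) := by
  classical
  have hvu : u ≠ v := fun h => S.ab u S.uA (h ▸ S.vB)
  by_cases hA0 : ∃ w0 ∈ T, ∀ a ∈ A, G.Adj w0 a
  · obtain ⟨w0, hw0, h⟩ := hA0
    exact case2 S w0 hw0 v hvu.symm (S.bt v S.vB) (fun a ha hadj => absurd (h a ha) hadj)
  by_cases hA2 : ∃ w0 ∈ T, ∃ z ∈ A, z ∉ As G A B ∧ G.Adj w0 z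
  · obtain ⟨w0, hw0, z, hz, hz1, hz2⟩ := hA2
    exact case2 S w0 hw0 z (fun h => hz1 (h ▸ S.u_mem)) (S.atn z hz)
      (fun a ha hadj => ⟨hz, hz1, hz2⟩)
  by_cases hB0 : ∃ w0 ∈ T, ∀ b ∈ B, G.Adj w0 b
  · obtain ⟨w0, hw0, h⟩ := hB0
    exact case2 S.symm w0 hw0 u hvu (S.atn u S.uA) (fun a ha hadj => absurd (h a ha) hadj)
  by_cases hB2 : ∃ w0 ∈ T, ∃ z ∈ B, z ∉ As G B A ∧ G.Adj w0 z
  · obtain ⟨w0, hw0, z, hz, hz1, hz2⟩ := hB2
    exact case2 S.symm w0 hw0 z (fun h => hz1 (h ▸ S.symm.u_mem)) (S.bt z hz)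
      (fun a ha hadj => ⟨hz, hz1, hz2⟩)
  push Not at hA0 hA2 hB2
  refine case1 S hT (fun w hw a ha ha' => hA2 w hw a ha ha') (fun w hw b hb hb' =>
    hB2 w hw b hb hb') ?_
  obtain ⟨w, hw⟩ : T.Nonempty := Finset.card_pos.1 (by omega)
  obtain ⟨a, ha, hadj⟩ := hA0 w hw
  exact ⟨a, ha, fun h => hadj (S.starA a h w hw)⟩

/-- Graphs with independence number at most two in which any two non-adjacent vertices have two
common neighbours have a colouring with two colours in which every two non-adjacent vertices have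
a common neighbour joined to them by edges of different colours. -/
theorem alpha_two (hα : ∀ x y z, x ≠ y → x ≠ z → y ≠ z → G.Adj x y ∨ G.Adj x z ∨ G.Adj y z)
    (h2 : ∀ x y, x ≠ y → ¬ G.Adj x y →
      2 ≤ (Finset.univ.filter (fun r => G.Adj x r ∧ G.Adj y r)).card) :
    ∃ c : Sym2 V → Bool, ∀ x y, x ≠ y → ¬ G.Adj x y →
      ∃ w, G.Adj x w ∧ G.Adj y w ∧ c s(x, w) ≠ c s(y, w) := by
  classical
  let P : Finset (V × V) := Finset.univ.filter (fun p => p.1 ≠ p.2 ∧ ¬ G.Adj p.1 p.2)
  by_cases hP : P.Nonempty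
  · obtain ⟨⟨u, v⟩, hp, hmin⟩ := Finset.exists_min_image P
      (fun p => (Finset.univ.filter (fun r => G.Adj p.1 r ∧ G.Adj p.2 r)).card) hP
    simp only [P, Finset.mem_filter, Finset.mem_univ, true_and] at hp hmin
    obtain ⟨huv, hadj⟩ := hp
    let A : Finset V := Finset.univ.filter (fun x => x ≠ v ∧ ¬ G.Adj x v)
    let B : Finset V := Finset.univ.filter (fun x => x ≠ u ∧ ¬ G.Adj x u)
    let T : Finset V := Finset.univ.filter (fun r => G.Adj u r ∧ G.Adj v r)
    have mA : ∀ x, x ∈ A ↔ (x ≠ v ∧ ¬ G.Adj x v) := fun x => by simp [A]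
    have mB : ∀ x, x ∈ B ↔ (x ≠ u ∧ ¬ G.Adj x u) := fun x => by simp [B]
    have mT : ∀ x, x ∈ T ↔ (G.Adj u x ∧ G.Adj v x) := fun x => by simp [T]
    have S : Setup G A B T u v :=
      { tri := fun x => by
          rw [mA, mB, mT]
          by_cases h1 : x = v
          · subst h1
            exact Or.inr (Or.inl ⟨huv.symm, fun h => hadj h.symm⟩)
          by_cases h2 : x = u
          · subst h2
            exact Or.inl ⟨h1, hadj⟩
          by_cases h3 : G.Adj x v
          · by_cases h4 : G.Adj x u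
            · exact Or.inr (Or.inr ⟨h4.symm, h3.symm⟩)
            · exact Or.inr (Or.inl ⟨h2, h4⟩)
          · exact Or.inl ⟨h1, h3⟩
        ab := fun x hx hx' => by
          rw [mA] at hx
          rw [mB] at hx'
          rcases hα x u v hx'.1 hx.1 huv with h | h | h
          · exact hx'.2 h
          · exact hx.2 h
          · exact hadj h
        atn := fun x hx hx' => by
          rw [mA] at hx
          rw [mT] at hx'
          exact hx.2 hx'.2.symm
        bt := fun x hx hx' => by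
          rw [mB] at hx
          rw [mT] at hx'
          exact hx.2 hx'.1.symm
        cA := fun x hx y hy hxy => by
          rw [mA] at hx hy
          rcases hα x y v hxy hx.1 hy.1 with h | h | h
          · exact h
          · exact absurd h hx.2
          · exact absurd h hy.2
        cB := fun x hx y hy hxy => by
          rw [mB] at hx hy
          rcases hα x y u hxy hx.1 hy.1 with h | h | h
          · exact h
          · exact absurd h hx.2
          · exact absurd h hy.2
        uA := (mA u).2 ⟨huv, hadj⟩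
        vB := (mB v).2 ⟨huv.symm, fun h => hadj h.symm⟩
        uB := fun b hb h => ((mB b).1 hb).2 h.symm
        vA := fun a ha h => ((mA a).1 ha).2 h.symm
        mn := fun x y hxy h => hmin (x, y) ⟨hxy, h⟩
        alpha := hα }
    exact main_setup S (h2 u v huv hadj)
  · refine ⟨fun _ => true, fun x y hxy hadj => absurd ?_ hP⟩
    exact ⟨(x, y), by simp [P, hxy, hadj]⟩

end Main

end Pool.Agent.Lib.MP_85f9db_co.H21
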